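import Pool.Agent.Helper187.CC.Stmts

set_option autoImplicit false
open Finset

namespace H187CC

namespace N3

variable {A : Type}

lemma cut_aux (c : A) (G : List A → List A → ℝ) (a : A) (w : List A)
    (H : ∀ u x y v, a :: w = u ++ x :: y :: v →
      G (u ++ [x]) (y :: v) * (ind (x = c) - ind (y = c)) = 0)
    (h1 : G (a :: w) [] = 0) :
    vspl (fun u x v => ind (x = c) * (G (u ++ [x]) v - G u (x :: v))) (a :: w)
      = - (ind (a = c) * G [] (a :: w)) := by
  induction w generalizing a G with
  | nil =>
    rw [vspl_cons]
    simp [h1]
  | cons b w ih =>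
    rw [vspl_cons]
    have h3 := ih (fun u v => G (a :: u) v) b
      (fun u x y v h => H (a :: u) x y v (by rw [h]; rfl)) h1
    have h2 := H [] a b w rfl
    simp only [List.nil_append, List.cons_append] at h3 h2 ⊢
    rw [h3]
    linarith

lemma vspl_last (V : List A → A → List A → ℝ) (w : List A) (b : A)
    (hV : ∀ u a x v, V u a (x :: v) = 0) : vspl V (w ++ [b]) = V w b [] := by
  induction w generalizing V with
  | nil => simp [vspl_cons]
  | cons a w ih =>
    rw [List.cons_append, vspl_cons, ih _ (fun u e x v => hV _ _ _ _)]
    cases w with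
    | nil => simp [hV]
    | cons e w => simp [hV]

lemma del_snoc (t : ℝ) (f : List A → ℝ) (w : List A) (b : A) :
    del t f (w ++ [b]) = t * del t (fun u => f (u ++ [b])) w + f w := by
  rw [del_append]
  simp [del_cons]

lemma vspl_improper (t : ℝ) (c : A) (w : List A) (hw : ¬ Proper w) :
    vspl (fun u a v => ind (a = c) * (t ^ v.length * (phi t (u ++ [a]) * pi' t v)
      - t ^ (v.length + 1) * (phi t u * pi' t (a :: v)))) w = 0 := by
  cases w with
  | nil => rfl
  | cons a w =>
    have := cut_aux c (fun u v => t ^ v.length * (phi t u * pi' t v)) a w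
      (by
        intro u x y v h
        by_cases hxy : x = y
        · subst hxy; ring
        · by_cases h1 : Proper (u ++ [x])
          · by_cases h2 : Proper (y :: v)
            · exfalso
              apply hw
              rw [h]
              exact Proper_glue h1 ⟨hxy, h2⟩
            · simp only [pi_improper t _ h2]; ring
          · simp only [phi_improper t _ h1]; ring)
      (by simp only [phi_improper t _ hw]; ring)
    simp only [pi_improper t _ hw, List.length_cons] at this
    rw [this]
    ring

/-- term-wise derivation identity -/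
lemma term (t : ℝ) (h0 : 0 < t) (h1 : t < 1) (c : A) (u : List A) (a : A) (v : List A)
    (hp : Proper (u ++ a :: v)) :
    t * (t ^ (v.length + 1) * del t (fun u' => ind (a = c) *
          (t ^ v.length * (phi t (u' ++ [a]) * pi' t v)
            - t ^ (v.length + 1) * (phi t u' * pi' t (a :: v)))) u
        + del t (fun v' => ind (a = c) *
          (t ^ v'.length * (phi t (u ++ [a]) * pi' t v')
            - t ^ (v'.length + 1) * (phi t u * pi' t (a :: v')))) v)
    = (1 - t ^ (u.length + v.length + 2)) * (ind (a = c) *
          (t ^ v.length * (phi t (u ++ [a]) * pi' t v)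
            - t ^ (v.length + 1) * (phi t u * pi' t (a :: v))))
      + (-1) * (if v = [] then ind (a = c) * phi t (u ++ [a]) else 0) := by
  classical
  have hpu : Proper u := Proper_append_left hp
  have hpav : Proper (a :: v) := Proper_append_right hp
  have hpv : Proper v := Proper_tail hpav
  have hpua : Proper (u ++ [a]) := by
    have : u ++ a :: v = (u ++ [a]) ++ v := by simp
    rw [this] at hp
    exact Proper_append_left hp
  -- first piece
  have e1 : del t (fun u' => ind (a = c) *
          (t ^ v.length * (phi t (u' ++ [a]) * pi' t v)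
            - t ^ (v.length + 1) * (phi t u' * pi' t (a :: v)))) u
      = ind (a = c) * (t ^ v.length * pi' t v) * del t (fun u' => phi t (u' ++ [a])) u
        + (- (ind (a = c) * (t ^ (v.length + 1) * pi' t (a :: v)))) * del t (phi t) u := by
    rw [← del_mul, ← del_mul, ← del_add]
    apply del_congr
    intro u' _
    ring
  have e2 : t * del t (fun u' => phi t (u' ++ [a])) u
      = (1 - t ^ (u.length + 1)) * phi t (u ++ [a]) - phi t u := by
    have h3 := phi_rec t h0 h1 (u ++ [a]) hpua
    rw [del_snoc] at h3
    have h4 : (u ++ [a]).length = u.length + 1 := by simp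
    rw [h4] at h3
    linarith
  have e3 : del t (phi t) u = (1 - t ^ u.length) * phi t u := (phi_rec t h0 h1 u hpu).symm
  -- second piece
  have f1 : t * del t (fun v' => ind (a = c) *
          (t ^ v'.length * (phi t (u ++ [a]) * pi' t v')
            - t ^ (v'.length + 1) * (phi t u * pi' t (a :: v')))) v
      = ind (a = c) * (t ^ v.length * phi t (u ++ [a])) * del t (pi' t) v
        + (- (ind (a = c) * (t ^ (v.length + 1) * phi t u))) * del t (fun v' => pi' t (a :: v')) v := by
    rw [← del_mul, ← del_mul, ← del_mul, ← del_add]
    apply del_congr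
    intro v' hv'
    rw [← hv']
    ring
  have f2 : del t (fun v' => pi' t (a :: v')) v
      = (1 - t ^ (v.length + 2)) * pi' t (a :: v) - t ^ v.length * pi' t v := by
    have h3 := pi_rec t h0 h1 (a :: v) hpav (by simp)
    rw [del_cons] at h3
    have h4 : (a :: v).length + 1 = v.length + 2 := by simp
    rw [h4] at h3
    linarith
  have f3 : del t (pi' t) v = (1 - t ^ (v.length + 1)) * pi' t v - (if v = [] then 1 else 0) := by
    by_cases hv : v = []
    · subst hv
      have : (1 : ℝ) - t ≠ 0 := by
        have := pow_ne t h0 h1 1 (by omega)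
        simpa using this
      simp only [del_nil, pi_nil, List.length_nil]
      field_simp
      simp
    · rw [if_neg hv, ← pi_rec t h0 h1 v hpv hv]
      ring
  have g1 : t * (t ^ (v.length + 1) * del t (fun u' => ind (a = c) *
          (t ^ v.length * (phi t (u' ++ [a]) * pi' t v)
            - t ^ (v.length + 1) * (phi t u' * pi' t (a :: v)))) u)
      = t ^ (v.length + 1) * (ind (a = c) * (t ^ v.length * pi' t v)
          * (t * del t (fun u' => phi t (u' ++ [a])) u)
        + (- (ind (a = c) * (t ^ (v.length + 1) * pi' t (a :: v)))) * (t * del t (phi t) u)) := by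
    rw [e1]; ring
  rw [mul_add, g1, f1, e2, e3, f2, f3]
  by_cases hv : v = []
  · subst hv
    simp only [List.length_nil, if_true]
    ring
  · rw [if_neg hv, if_neg hv]
    ring

lemma proper_case (t : ℝ) (h0 : 0 < t) (h1 : t < 1) (c : A) (w : List A) (b : A)
    (hp : Proper (w ++ [b])) :
    t * del t (fun w' => vspl (fun u a v => ind (a = c) *
      (t ^ v.length * (phi t (u ++ [a]) * pi' t v)
        - t ^ (v.length + 1) * (phi t u * pi' t (a :: v)))) w') (w ++ [b])
    = (1 - t ^ (w.length + 2)) * vspl (fun u a v => ind (a = c) *
      (t ^ v.length * (phi t (u ++ [a]) * pi' t v)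
        - t ^ (v.length + 1) * (phi t u * pi' t (a :: v)))) (w ++ [b])
      - ind (b = c) * phi t (w ++ [b]) := by
  classical
  rw [del_vspl, ← vspl_mul, ← vspl_mul]
  have h2 : vspl (fun (u : List A) a v => (-1 : ℝ) * (if v = [] then ind (a = c) * phi t (u ++ [a]) else 0))
      (w ++ [b]) = - (ind (b = c) * phi t (w ++ [b])) := by
    rw [vspl_last]
    · simp
    · intro u a x v
      simp
  rw [sub_eq_add_neg, ← h2, ← vspl_add]
  apply vspl_congr
  intro u a v hs
  rw [term t h0 h1 c u a v (hs ▸ hp)]
  have hl : u.length + v.length + 2 = w.length + 2 := by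
    have := congrArg List.length hs
    simp at this
    omega
  rw [hl]

lemma rhs_case (t : ℝ) (h0 : 0 < t) (h1 : t < 1) (c : A) (w : List A) (b : A)
    (hp : Proper (w ++ [b])) :
    t * del t (fun v => phi t (v ++ [c])) (w ++ [b])
      = (1 - t ^ (w.length + 2)) * phi t (w ++ [b] ++ [c]) - phi t (w ++ [b])
        + (1 + t) * (ind (b = c) * phi t (w ++ [b])) := by
  classical
  by_cases hbc : b = c
  · subst hbc
    have h2 : ¬ Proper (w ++ [b] ++ [b]) := by
      intro h
      have h3 : w ++ [b] ++ [b] = w ++ [b, b] := by simp
      rw [h3] at h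
      exact (Proper_append_right h).1 rfl
    have h4 : del t (fun u => phi t (u ++ [b] ++ [b])) w = 0 := by
      rw [del_congr t _ (fun _ => 0) w, del_zero]
      intro u _
      apply phi_improper
      intro h
      have h3 : u ++ [b] ++ [b] = u ++ [b, b] := by simp
      rw [h3] at h
      exact (Proper_append_right h).1 rfl
    rw [del_snoc, h4, phi_improper t _ h2]
    simp only [ind, if_true]
    ring
  · have h2 : Proper (w ++ [b] ++ [c]) := by
      have h3 : w ++ [b] ++ [c] = w ++ b :: [c] := by simp
      rw [h3]
      exact Proper_glue hp ⟨hbc, trivial⟩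
    have h3 := phi_rec t h0 h1 _ h2
    rw [del_snoc] at h3
    have h4 : (w ++ [b] ++ [c]).length = w.length + 2 := by simp
    rw [h4] at h3
    simp only [ind, if_neg hbc]
    linarith

end N3

theorem taskN3 : TaskN3 := by
  intro A t h0 h1 c w
  have ht1 : (1 : ℝ) - t ≠ 0 := by
    have := pow_ne t h0 h1 1 (by omega)
    simpa using this
  induction hn : w.length generalizing w with
  | zero =>
    have hw : w = [] := List.length_eq_zero_iff.mp hn
    subst hw
    have h2 := phi_rec t h0 h1 [c] trivial
    simp only [del_cons, del_nil, List.length_cons, List.length_nil, phi_nil, zero_add,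
      pow_one, pow_zero, mul_one, add_zero] at h2
    have h3 : phi t [c] = 1 / (1 - t) := by
      field_simp
      linarith
    simp only [vspl_nil, phi_nil, List.nil_append, h3]
    ring
  | succ n ih =>
    by_cases hp : Proper w
    · obtain ⟨w, b, rfl⟩ : ∃ w' b, w = w' ++ [b] := by
        rcases List.eq_nil_or_concat w with h | ⟨w', b, h⟩
        · subst h; simp at hn
        · exact ⟨w', b, by simpa using h⟩
      have hl : n = w.length := by
        simp at hn
        omega
      have k1 := N3.proper_case t h0 h1 c w b hp
      have k2 := N3.rhs_case t h0 h1 c w b hp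
      have k3 := phi_rec t h0 h1 (w ++ [b]) hp
      have k4 : (1 + t) * del t (fun w' => vspl (fun u a v => ind (a = c) *
          (t ^ v.length * (phi t (u ++ [a]) * pi' t v)
            - t ^ (v.length + 1) * (phi t u * pi' t (a :: v)))) w') (w ++ [b])
          = (1 / (1 - t)) * del t (phi t) (w ++ [b])
            + (-1) * del t (fun v => phi t (v ++ [c])) (w ++ [b]) := by
        rw [← del_mul, ← del_mul, ← del_mul, ← del_add]
        apply del_congr
        intro v hv
        rw [ih v (by omega)]
        ring
      rw [← k3] at k4
      have hne := pow_ne t h0 h1 (w.length + 2) (by omega)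
      have hlen : (w ++ [b]).length = w.length + 1 := by simp
      rw [hlen] at k4
      apply mul_left_cancel₀ hne
      have k5 : t * (1 / (1 - t) * ((1 - t ^ (w.length + 1)) * phi t (w ++ [b])))
          = (1 - t ^ (w.length + 2)) * (phi t (w ++ [b]) / (1 - t)) - phi t (w ++ [b]) := by
        field_simp
        ring
      linear_combination (1 + t) * (-k1) + t * k4 + (-1) * k2 + k5
    · rw [N3.vspl_improper t c w hp, phi_improper t w hp, phi_improper t (w ++ [c])
        (fun h => hp (Proper_append_left h))]
      ring

end H187CC
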